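import Mathlib

set_option autoImplicit false

/-!
A quasigroup of order 17 with `(xy)y = x(xy)`. The operation is `x y = x + g (y - x)` on the integers
modulo 17, so that all translations `x ↦ x + c` are automorphisms. The identity says
`g (g z) = g z + g (z - g z)` for all `z`; the operation is a quasigroup since `g` and `z ↦ g z - z`
are permutations.
-/

namespace Pool.Agent.Results.MP_ab03e0_co.OrderSeventeen

/-- `op` is a quasigroup operation on `S`: for all `a, b` each of the equations `a x = b` and
`x a = b` has exactly one solution. -/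
def IsQuasigroup {S : Type} (op : S → S → S) : Prop :=
  (∀ a b, ∃! x, op a x = b) ∧ (∀ a b, ∃! x, op x a = b)

/-- the row of `0` of the multiplication table -/
def g : ZMod 17 → ZMod 17 := fun z =>
  (![0, 5, 10, 8, 3, 2, 16, 13, 6, 11, 4, 1, 15, 14, 9, 7, 12] : Fin 17 → ZMod 17) z

/-- the inverse of `g` -/
def gl : ZMod 17 → ZMod 17 := fun z =>
  (![0, 11, 5, 4, 10, 1, 8, 15, 3, 14, 2, 9, 16, 7, 13, 12, 6] : Fin 17 → ZMod 17) z

/-- the inverse of `z ↦ g z - z` -/
def gr : ZMod 17 → ZMod 17 := fun z =>
  (![0, 13, 9, 12, 1, 3, 7, 11, 2, 15, 6, 10, 14, 16, 5, 8, 4] : Fin 17 → ZMod 17) z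

lemma g_gl : ∀ z, g (gl z) = z := by decide

lemma gl_g : ∀ z, gl (g z) = z := by decide

lemma h_gr : ∀ z, g (gr z) - gr z = z := by decide

lemma gr_h : ∀ z, gr (g z - z) = z := by decide

lemma ident : ∀ z, g (g z) = g z + g (z - g z) := by decide

/-- the multiplication -/
def mul17 (x y : ZMod 17) : ZMod 17 := x + g (y - x)

/-- **There is a quasigroup of order 17 with `(xy)y = x(xy)` for all `x`, `y`.** There is even one all
of whose elements are permuted transitively by automorphisms. -/
theorem result : ∃ (S : Type) (_ : Fintype S) (op : S → S → S),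
    Fintype.card S = 17 ∧ IsQuasigroup op ∧ (∀ x y : S, op (op x y) y = op x (op x y)) ∧
      ∀ a b : S, ∃ f : S ≃ S, (∀ x y, f (op x y) = op (f x) (f y)) ∧ f a = b := by
  refine ⟨ZMod 17, inferInstance, mul17, rfl, ⟨?_, ?_⟩, ?_, ?_⟩
  · intro a b
    refine ⟨a + gl (b - a), ?_, ?_⟩
    · show a + g (a + gl (b - a) - a) = b
      rw [add_sub_cancel_left, g_gl]
      ring
    · intro x hx
      have hx : a + g (x - a) = b := hx
      have : g (x - a) = b - a := by rw [← hx]; ring
      rw [← this, gl_g]
      ring
  · intro a b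
    refine ⟨a - gr (b - a), ?_, ?_⟩
    · show a - gr (b - a) + g (a - (a - gr (b - a))) = b
      have h := h_gr (b - a)
      rw [sub_sub_cancel]
      linear_combination h
    · intro x hx
      have hx : x + g (a - x) = b := hx
      have : g (a - x) - (a - x) = b - a := by rw [← hx]; ring
      rw [← this, gr_h]
      ring
  · intro x y
    show x + g (y - x) + g (y - (x + g (y - x))) = x + g (x + g (y - x) - x)
    have h := ident (y - x)
    rw [add_sub_cancel_left, h]
    rw [show y - (x + g (y - x)) = y - x - g (y - x) by ring]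
    ring
  · intro a b
    refine ⟨Equiv.addRight (b - a), ?_, ?_⟩
    · intro x y
      show x + g (y - x) + (b - a) = x + (b - a) + g (y + (b - a) - (x + (b - a)))
      rw [show y + (b - a) - (x + (b - a)) = y - x by ring]
      ring
    · show a + (b - a) = b
      ring

end Pool.Agent.Results.MP_ab03e0_co.OrderSeventeen
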